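import Pool.Agent.Helper21.Cut.Defs2

/-!
# Marked cuts of closed words (MP_86dbc7_gt): closed recursion
-/

open Pool.Agent.Helper21.Cut

namespace Pool.Agent.H29.Cut

section general

variable {S T R : Type*} [CommRing R]

theorem sp_eq_sum (W : List S) (f : List S → List S → R) :
    sp W f = ∑ a ∈ Finset.range (W.length + 1), f (W.take a) (W.drop a) := by
  induction W generalizing f with
  | nil => simp [sp]
  | cons a W ih =>
    rw [sp, ih, List.length_cons, Finset.sum_range_succ' _ (W.length + 1)]
    simp [add_comm]

theorem spn_eq_sum (W : List S) (f : List S → List S → R) :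
    spn W f = ∑ a ∈ Finset.range W.length, f (W.take (a+1)) (W.drop (a+1)) := by
  cases W with
  | nil => simp [spn]
  | cons a W => rw [spn, sp_eq_sum]; simp

/-- the value of `J` at the two gaps of the closed word `U` in front of the letters `0` and `l` -/
def TT {S A : Type*} (J : S → S → S → S → A) (d : S) (l : ℕ) (U : List S) : A :=
  J ((U.drop l).getLastD d) ((U.take l).headD d) ((U.take l).getLastD d) ((U.drop l).headD d)

/-- marked value of a based word -/
def hh (J : S → S → S → S → ℤ) (lam F : List S → R) (mk : S → Prop) [DecidablePred mk] (j : ℕ) :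
    List S → R
  | [] => 0
  | b :: W => if mk b then nuF J lam F j b W else 0

/-- marked value of a closed word -/
def MM (J : S → S → S → S → ℤ) (lam F : List S → R) (mk : S → Prop) [DecidablePred mk] (j : ℕ)
    (W : List S) : R :=
  ∑ q ∈ Finset.range W.length, hh J lam F mk j (W.rotate q)

theorem rotsum (W : List S) (f : List S → R) (c : ℕ) :
    ∑ q ∈ Finset.range W.length, f (W.rotate (q + c)) =
      ∑ q ∈ Finset.range W.length, f (W.rotate q) := by
  induction c with
  | zero => simp
  | succ c ih =>
    rw [← ih]
    have h1 := Finset.sum_range_succ' (fun q => f (W.rotate (q + c))) W.length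
    have h2 := Finset.sum_range_succ (fun q => f (W.rotate (q + c))) W.length
    have h3 : W.rotate (W.length + c) = W.rotate (0 + c) := by
      rw [← List.rotate_mod, Nat.add_mod_left, List.rotate_mod, zero_add]
    rw [h2] at h1
    simp only [h3] at h1
    have h4 := add_right_cancel h1
    rw [h4]
    exact Finset.sum_congr rfl fun q _ => by rw [Nat.add_right_comm, ← Nat.add_assoc]

theorem TT_append {A' : Type*} (J : S → S → S → S → A') (d b : S) (A B C : List S) (hB : B ≠ []) :
    TT J d B.length (B ++ (C ++ b :: A)) =
      J (A.getLastD b) (B.headD b) (B.getLastD b) (C.headD b) := by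
  unfold TT
  rw [List.drop_left, List.take_left]
  congr 1
  · rw [List.getLastD_eq_getLast?, List.getLastD_eq_getLast?, List.getLast?_append,
      List.getLast?_cons]
    simp
  · cases B with
    | nil => exact absurd rfl hB
    | cons x B => rfl
  · cases B with
    | nil => exact absurd rfl hB
    | cons x B => rfl
  · cases C with
    | nil => rfl
    | cons x C => rfl

variable (J : S → S → S → S → ℤ) (lam F : List S → R) (mk : S → Prop) [DecidablePred mk]

theorem hh_succ (d : S) (j : ℕ) (b : S) (W : List S) :
    hh J lam F mk (j + 1) (b :: W) =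
      ∑ a ∈ Finset.range (W.length + 1), ∑ m ∈ Finset.range (W.length - a),
        ((TT J d (m + 1) ((b :: W).rotate (a + 1)) : ℤ) : R) *
          lam (((b :: W).rotate (a + 1)).take (m + 1)) *
          hh J lam F mk j ((((b :: W).rotate (a + 1)).drop (m + 1)).rotate
            (W.length - a - (m + 1))) := by
  have key : ∀ a ∈ Finset.range (W.length + 1), ∀ m ∈ Finset.range (W.length - a),
      ((TT J d (m + 1) ((b :: W).rotate (a + 1)) : ℤ) : R) *
          lam (((b :: W).rotate (a + 1)).take (m + 1)) *
          hh J lam F mk j ((((b :: W).rotate (a + 1)).drop (m + 1)).rotate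
            (W.length - a - (m + 1))) =
        ((J ((W.take a).getLastD b) (((W.drop a).take (m + 1)).headD b)
          (((W.drop a).take (m + 1)).getLastD b) (((W.drop a).drop (m + 1)).headD b) : ℤ) : R) *
          lam ((W.drop a).take (m + 1)) *
          hh J lam F mk j (b :: (W.take a ++ (W.drop a).drop (m + 1))) := by
    intro a ha m hm
    rw [Finset.mem_range] at ha hm
    have e1 : (b :: W).rotate (a + 1) =
        (W.drop a).take (m + 1) ++ ((W.drop a).drop (m + 1) ++ b :: W.take a) := by
      rw [List.rotate_eq_drop_append_take (by simp; omega), List.drop_succ_cons,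
        List.take_succ_cons, ← List.append_assoc, List.take_append_drop]
    have hlen : ((W.drop a).take (m + 1)).length = m + 1 := by
      simp only [List.length_take, List.length_drop]; omega
    have hne : (W.drop a).take (m + 1) ≠ [] := by
      intro h; rw [h] at hlen; simp at hlen
    rw [e1]
    have e2 := TT_append J d b (W.take a) _ ((W.drop a).drop (m + 1)) hne
    rw [hlen] at e2
    rw [e2, List.take_left' hlen, List.drop_left' hlen]
    have hlen2 : ((W.drop a).drop (m + 1)).length = W.length - a - (m + 1) := by
      simp only [List.length_drop]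
    rw [← hlen2, List.rotate_append_length_eq, List.cons_append]
  rw [Finset.sum_congr rfl fun a ha => Finset.sum_congr rfl (key a ha)]
  simp only [hh]
  by_cases hb : mk b
  · simp only [if_pos hb]
    rw [nuF, sp_eq_sum]
    refine Finset.sum_congr rfl fun a ha => ?_
    rw [spn_eq_sum, List.length_drop]
  · simp [if_neg hb]

theorem MM_succ (d : S) (j : ℕ) (W : List S) :
    MM J lam F mk (j + 1) W =
      ∑ m ∈ Finset.range (W.length - 1), ∑ q ∈ Finset.range W.length,
        ((TT J d (m + 1) (W.rotate q) : ℤ) : R) * lam ((W.rotate q).take (m + 1)) *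
          MM J lam F mk j ((W.rotate q).drop (m + 1)) := by
  unfold MM
  have h1 : ∀ q ∈ Finset.range W.length, hh J lam F mk (j + 1) (W.rotate q) =
      ∑ a ∈ Finset.range W.length, ∑ m ∈ Finset.range (W.length - 1 - a),
        ((TT J d (m + 1) (W.rotate (q + (a + 1))) : ℤ) : R) *
          lam ((W.rotate (q + (a + 1))).take (m + 1)) *
          hh J lam F mk j (((W.rotate (q + (a + 1))).drop (m + 1)).rotate
            (W.length - 1 - a - (m + 1))) := by
    intro q hq
    have hN : (W.rotate q).length = W.length := List.length_rotate ..
    rcases hU : W.rotate q with _ | ⟨b, U⟩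
    · rw [hU] at hN
      simp at hN
      rw [← hN] at hq
      simp at hq
    · rw [hh_succ J lam F mk d j b U]
      rw [hU] at hN
      simp only [List.length_cons] at hN
      have e : U.length = W.length - 1 := by omega
      rw [e, show W.length - 1 + 1 = W.length by omega]
      refine Finset.sum_congr rfl fun a ha => Finset.sum_congr rfl fun m hm => ?_
      rw [← hU, List.rotate_rotate]
  rw [Finset.sum_congr rfl h1, Finset.sum_comm]
  have h2 : ∀ a ∈ Finset.range W.length, ∑ q ∈ Finset.range W.length,
      ∑ m ∈ Finset.range (W.length - 1 - a),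
        ((TT J d (m + 1) (W.rotate (q + (a + 1))) : ℤ) : R) *
          lam ((W.rotate (q + (a + 1))).take (m + 1)) *
          hh J lam F mk j (((W.rotate (q + (a + 1))).drop (m + 1)).rotate
            (W.length - 1 - a - (m + 1))) =
      ∑ m ∈ Finset.range (W.length - 1 - a), ∑ q ∈ Finset.range W.length,
        ((TT J d (m + 1) (W.rotate q) : ℤ) : R) *
          lam ((W.rotate q).take (m + 1)) *
          hh J lam F mk j (((W.rotate q).drop (m + 1)).rotate
            (W.length - 1 - a - (m + 1))) := by
    intro a ha
    rw [Finset.sum_comm]
    refine Finset.sum_congr rfl fun m hm => ?_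
    exact rotsum W (fun U => ((TT J d (m + 1) U : ℤ) : R) *
          lam (U.take (m + 1)) *
          hh J lam F mk j ((U.drop (m + 1)).rotate
            (W.length - 1 - a - (m + 1)))) (a + 1)
  rw [Finset.sum_congr rfl h2]
  rw [Finset.sum_comm' (s' := fun m => Finset.range (W.length - 1 - m))
    (t' := Finset.range (W.length - 1)) (by
      intro x y
      simp only [Finset.mem_range]
      omega)]
  refine Finset.sum_congr rfl fun m hm => ?_
  rw [Finset.sum_comm]
  refine Finset.sum_congr rfl fun q hq => ?_
  rw [← Finset.mul_sum]
  congr 1
  rw [List.length_drop, List.length_rotate, show W.length - (m + 1) = W.length - 1 - m by omega]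
  rw [← Finset.sum_range_reflect]
  refine Finset.sum_congr rfl fun a ha => ?_
  rw [Finset.mem_range] at ha
  congr 2
  omega

end general

end Pool.Agent.H29.Cut
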