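import Pool.Agent.H29.Cut.Spiral1

/-!
# Marked cuts of closed words (MP_86dbc7_gt): dependence on the types only
-/

open Pool.Agent.Helper21.Cut

namespace Pool.Agent.H29.Cut

theorem chain_single_iff {T : Type*} (r : T → T → Prop) (d : T) (B : List T) (hB : B ≠ []) :
    Cycle.Chain r (B : Cycle T) ↔ List.IsChain r B ∧ r (B.getLastD d) (B.headD d) := by
  rcases B with _ | ⟨b, B⟩
  · exact absurd rfl hB
  rw [Cycle.chain_coe_cons, ← List.cons_append, List.isChain_append]
  simp only [List.isChain_singleton, List.head?_cons, Option.mem_def, Option.some.injEq,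
    forall_eq', true_and, List.headD_cons, List.getLastD_eq_getLast?]
  refine and_congr_right fun _ => ?_
  rw [List.getLast?_cons]
  simp

theorem chain_append_iff {T : Type*} (r : T → T → Prop) (d : T) (B V : List T) (hB : B ≠ [])
    (hV : V ≠ []) :
    Cycle.Chain r ((B ++ V : List T) : Cycle T) ↔ List.IsChain r B ∧ List.IsChain r V ∧
      r (B.getLastD d) (V.headD d) ∧ r (V.getLastD d) (B.headD d) := by
  rw [chain_single_iff r d _ (by simp [hB])]
  rcases B with _ | ⟨b, B⟩
  · exact absurd rfl hB
  rcases V with _ | ⟨v, V⟩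
  · exact absurd rfl hV
  rw [List.isChain_append]
  simp only [List.head?_cons, Option.mem_def, Option.some.injEq,
    forall_eq', List.headD_cons, List.getLastD_eq_getLast?, List.getLast?_append,
    List.getLast?_cons, Option.getD_some, Option.some_or, List.cons_append]
  tauto

theorem getLastD_map' {S T : Type*} (f : S → T) (d : S) (l : List S) :
    (l.map f).getLastD (f d) = f (l.getLastD d) := by
  rw [List.getLastD_eq_getLast?, List.getLastD_eq_getLast?, List.getLast?_map]
  cases l.getLast? <;> rfl

theorem headD_map' {S T : Type*} (f : S → T) (d : S) (l : List S) :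
    (l.map f).headD (f d) = f (l.headD d) := by
  cases l <;> rfl

theorem getLastD_mem {S : Type*} (d : S) (l : List S) (h : l ≠ []) : l.getLastD d ∈ l := by
  rw [List.getLastD_eq_getLast?, List.getLast?_eq_some_getLast h]
  exact List.getLast_mem h

section general

variable {S T R : Type*} [CommRing R]
variable (J : S → S → S → S → ℤ) (ty : S → T) (adj : T → T → Prop) (D : T → T → T → T → ℤ)
  (t : S → S → ℤ) (L G : Cycle T → R) (k : T) [DecidableEq T]

/-- type labels -/
def lamT (B : List S) : R := L (B.map ty : Cycle T)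

/-- marked value -/
def MT (j : ℕ) (W : List S) : R := MM J (lamT ty L) (lamT ty G) (fun s => ty s = k) j W

/-- the marked value depends only on the types -/
def PT (j : ℕ) : Prop :=
  ∀ W W' : List S, W.map ty = W'.map ty → W.Nodup → W'.Nodup →
    Cycle.Chain adj ((W.map ty : List T) : Cycle T) → MT J ty L G k j W = MT J ty L G k j W'

omit [CommRing R] [DecidableEq T] in
theorem lamT_congr {B B' : List S} (h : B.map ty = B'.map ty) : lamT ty L B = lamT ty L B' := by
  unfold lamT; rw [h]

omit [CommRing R] [DecidableEq T] in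
theorem lamT_rot (A B : List S) : lamT ty L (A ++ B) = lamT ty L (B ++ A) := by
  unfold lamT
  congr 1
  rw [List.map_append, List.map_append]
  exact Cycle.coe_eq_coe.2 ⟨(A.map ty).length, by rw [List.rotate_append_length_eq]⟩

theorem MT_rot (j : ℕ) (W : List S) (c : ℕ) :
    MT J ty L G k j (W.rotate c) = MT J ty L G k j W := by
  unfold MT MM
  rw [List.length_rotate, ← rotsum W _ c]
  refine Finset.sum_congr rfl fun q _ => ?_
  rw [List.rotate_rotate, add_comm]

theorem PT_zero : PT J ty adj L G k 0 := by
  intro W W' h _ _ _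
  unfold MT MM
  have hl : W.length = W'.length := by
    have := congrArg List.length h
    simpa using this
  rw [hl]
  refine Finset.sum_congr rfl fun q _ => ?_
  have h2 : (W.rotate q).map ty = (W'.rotate q).map ty := by
    rw [List.map_rotate, List.map_rotate, h]
  rcases hU : W.rotate q with _ | ⟨b, U⟩ <;> rcases hU' : W'.rotate q with _ | ⟨b', U'⟩
  · rfl
  · rw [hU, hU'] at h2; simp at h2
  · rw [hU, hU'] at h2; simp at h2
  · rw [hU, hU'] at h2
    simp only [List.map_cons, List.cons.injEq] at h2
    simp only [hh, nuF, h2.1]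
    congr 1
    apply lamT_congr
    simp [h2.1, h2.2]

theorem exists_decomp (U : List S) (l : ℕ) (h0 : 0 < l) (h1 : l < U.length) :
    ∃ b B v V, U = (b :: B) ++ (v :: V) ∧ B.length + 1 = l := by
  have h2 : U = U.take l ++ U.drop l := (List.take_append_drop l U).symm
  rcases hB : U.take l with _ | ⟨b, B⟩
  · have := congrArg List.length hB
    rw [List.length_take, List.length_nil] at this
    omega
  rcases hV : U.drop l with _ | ⟨v, V⟩
  · have := congrArg List.length hV
    rw [List.length_drop, List.length_nil] at this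
    omega
  refine ⟨b, B, v, V, by rw [h2, hB, hV], ?_⟩
  have := congrArg List.length hB
  rw [List.length_take, List.length_cons] at this
  omega

variable {J ty adj D t L G k}

/-- types of the two gaps -/
theorem TT_split (d : S)
    (hJ : ∀ x₁ y₁ x₂ y₂, x₁ ≠ x₂ → y₁ ≠ y₂ → adj (ty x₁) (ty y₁) → adj (ty x₂) (ty y₂) →
      J x₁ y₁ x₂ y₂ = D (ty x₁) (ty y₁) (ty x₂) (ty y₂) + t x₁ x₂ - t y₁ y₂)
    (U : List S) (l : ℕ) (h0 : 0 < l) (h1 : l < U.length) (hnd : U.Nodup)
    (hch : Cycle.Chain adj ((U.map ty : List T) : Cycle T)) :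
    TT J d l U = TT D (ty d) l (U.map ty) + t ((U.drop l).getLastD d) ((U.take l).getLastD d)
      - t ((U.take l).headD d) ((U.drop l).headD d) := by
  unfold TT
  obtain ⟨b, B, v, V, rfl, hl⟩ := exists_decomp U l h0 h1
  have hl' : (b :: B).length = l := by simpa using hl
  rw [List.map_append, chain_append_iff adj (ty d) _ _ (by simp) (by simp)] at hch
  obtain ⟨-, -, h3, h4⟩ := hch
  rw [getLastD_map', headD_map'] at h3 h4
  rw [List.map_append, List.take_left' hl', List.drop_left' hl', List.take_left' (by simpa using hl'),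
    List.drop_left' (by simpa using hl'), getLastD_map', getLastD_map', headD_map', headD_map']
  rw [List.nodup_append] at hnd
  refine hJ _ _ _ _ ?_ ?_ h4 h3
  · intro h
    exact hnd.2.2 _ (getLastD_mem d (b :: B) (by simp)) _ (getLastD_mem d (v :: V) (by simp)) h.symm
  · exact hnd.2.2 _ (by simp) _ (by simp)

theorem shift_term (d : S) (ht : ∀ x y, t x y ≠ 0 → ty x = ty y) (j : ℕ)
    (hP : PT J ty adj L G k j)
    (U : List S) (l : ℕ) (h0 : 0 < l) (h1 : l < U.length) (hnd : U.Nodup)
    (hch : Cycle.Chain adj ((U.map ty : List T) : Cycle T)) :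
    ((t (((U.rotate 1).drop l).getLastD d) (((U.rotate 1).take l).getLastD d) : ℤ) : R) *
      lamT ty L ((U.rotate 1).take l) * MT J ty L G k j ((U.rotate 1).drop l) =
    ((t ((U.take l).headD d) ((U.drop l).headD d) : ℤ) : R) *
      lamT ty L (U.take l) * MT J ty L G k j (U.drop l) := by
  obtain ⟨b, B, v, V, rfl, hl⟩ := exists_decomp U l h0 h1
  have hl' : (b :: B).length = l := by simpa using hl
  have e1 : ((b :: B) ++ (v :: V)).rotate 1 = (B ++ [v]) ++ (V ++ [b]) := by
    simp
  have hl2 : (B ++ [v]).length = l := by simpa using hl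
  rw [e1, List.take_left' hl2, List.drop_left' hl2, List.take_left' hl', List.drop_left' hl']
  have e2 : (V ++ [b]).getLastD d = b := by simp
  have e3 : (B ++ [v]).getLastD d = v := by simp
  rw [e2, e3, List.headD_cons, List.headD_cons]
  by_cases h : t b v = 0
  · rw [h]; simp
  have hty := ht b v h
  have e4 : lamT ty L (B ++ [v]) = lamT ty L (b :: B) := by
    rw [lamT_rot]
    apply lamT_congr
    simp [hty]
  have e5 : MT J ty L G k j (V ++ [b]) = MT J ty L G k j (v :: V) := by
    have e6 : MT J ty L G k j (v :: V) = MT J ty L G k j (V ++ [v]) := by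
      rw [← MT_rot J ty L G k j (v :: V) 1]
      simp
    rw [e6]
    apply hP
    · simp [hty]
    · rw [List.nodup_append] at hnd ⊢
      refine ⟨(List.nodup_cons.1 hnd.2.1).2, by simp, ?_⟩
      intro a ha c hc
      rw [List.mem_singleton] at hc
      subst hc
      exact fun h => hnd.2.2 c (by simp) a (by simp [ha]) h.symm
    · rw [List.nodup_append] at hnd ⊢
      have h7 := List.nodup_cons.1 hnd.2.1
      refine ⟨h7.2, by simp, ?_⟩
      intro a ha c hc
      rw [List.mem_singleton] at hc
      subst hc
      exact fun h => h7.1 (h ▸ ha)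
    · rw [List.map_append, chain_append_iff adj (ty d) _ _ (by simp) (by simp)] at hch
      obtain ⟨-, h2, h3, h4⟩ := hch
      rw [List.map_append, List.map_cons, List.map_nil, hty, ← List.map_singleton, ← List.map_append]
      have e8 : (((V ++ [v]).map ty : List T) : Cycle T) = (((v :: V).map ty : List T) : Cycle T) :=
        Cycle.coe_eq_coe.2 (List.IsRotated.symm ⟨1, by simp⟩)
      rw [e8, chain_single_iff adj (ty d) _ (by simp)]
      refine ⟨h2, ?_⟩
      have h9 : (List.map ty (b :: B)).headD (ty d) = (List.map ty (v :: V)).headD (ty d) := by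
        simp [hty]
      rw [← h9]
      exact h4
  rw [e4, e5]

/-- recursion with type coefficients -/
theorem MT_succ (d : S)
    (hJ : ∀ x₁ y₁ x₂ y₂, x₁ ≠ x₂ → y₁ ≠ y₂ → adj (ty x₁) (ty y₁) → adj (ty x₂) (ty y₂) →
      J x₁ y₁ x₂ y₂ = D (ty x₁) (ty y₁) (ty x₂) (ty y₂) + t x₁ x₂ - t y₁ y₂)
    (ht : ∀ x y, t x y ≠ 0 → ty x = ty y) (j : ℕ)
    (hP : PT J ty adj L G k j) (W : List S) (hnd : W.Nodup)
    (hch : Cycle.Chain adj ((W.map ty : List T) : Cycle T)) :
    MT J ty L G k (j + 1) W =
      ∑ m ∈ Finset.range (W.length - 1), ∑ q ∈ Finset.range W.length,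
        ((TT D (ty d) (m + 1) ((W.map ty).rotate q) : ℤ) : R) *
          lamT ty L ((W.rotate q).take (m + 1)) *
          MT J ty L G k j ((W.rotate q).drop (m + 1)) := by
  have h1 := MM_succ J (lamT ty L) (lamT ty G) (fun s => ty s = k) d j W
  unfold MT
  rw [h1]
  refine Finset.sum_congr rfl fun m hm => ?_
  rw [Finset.mem_range] at hm
  have hU : ∀ q, (W.rotate q).Nodup := fun q => List.nodup_rotate.2 hnd
  have hC : ∀ q, Cycle.Chain adj (((W.rotate q).map ty : List T) : Cycle T) := by
    intro q
    rw [List.map_rotate]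
    have : (((W.map ty).rotate q : List T) : Cycle T) = ((W.map ty : List T) : Cycle T) :=
      Cycle.coe_eq_coe.2 (List.IsRotated.symm ⟨q, rfl⟩)
    rw [this]
    exact hch
  have h2 : ∀ q ∈ Finset.range W.length,
      ((TT J d (m + 1) (W.rotate q) : ℤ) : R) * lamT ty L ((W.rotate q).take (m + 1)) *
          MM J (lamT ty L) (lamT ty G) (fun s => ty s = k) j ((W.rotate q).drop (m + 1)) =
      ((TT D (ty d) (m + 1) ((W.map ty).rotate q) : ℤ) : R) *
          lamT ty L ((W.rotate q).take (m + 1)) *
          MM J (lamT ty L) (lamT ty G) (fun s => ty s = k) j ((W.rotate q).drop (m + 1)) +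
      (((t (((W.rotate q).drop (m + 1)).getLastD d) (((W.rotate q).take (m + 1)).getLastD d) : ℤ)
          : R) *
          lamT ty L ((W.rotate q).take (m + 1)) * MT J ty L G k j ((W.rotate q).drop (m + 1)) -
       ((t (((W.rotate (q + 1)).drop (m + 1)).getLastD d)
          (((W.rotate (q + 1)).take (m + 1)).getLastD d) : ℤ) : R) *
          lamT ty L ((W.rotate (q + 1)).take (m + 1)) *
          MT J ty L G k j ((W.rotate (q + 1)).drop (m + 1))) := by
    intro q _
    have hlen : m + 1 < (W.rotate q).length := by rw [List.length_rotate]; omega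
    have e := shift_term d ht j hP (W.rotate q) (m + 1) (by omega) hlen (hU q) (hC q)
    rw [List.rotate_rotate] at e
    rw [e, TT_split d hJ (W.rotate q) (m + 1) (by omega) hlen (hU q) (hC q), List.map_rotate]
    unfold MT
    push_cast
    ring
  rw [Finset.sum_congr rfl h2, Finset.sum_add_distrib, Finset.sum_sub_distrib]
  have h3 := rotsum W (fun U => ((t ((U.drop (m + 1)).getLastD d)
          ((U.take (m + 1)).getLastD d) : ℤ) : R) *
          lamT ty L (U.take (m + 1)) *
          MT J ty L G k j (U.drop (m + 1))) 1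
  rw [h3, sub_self, add_zero]

theorem PT_succ (d : S)
    (hJ : ∀ x₁ y₁ x₂ y₂, x₁ ≠ x₂ → y₁ ≠ y₂ → adj (ty x₁) (ty y₁) → adj (ty x₂) (ty y₂) →
      J x₁ y₁ x₂ y₂ = D (ty x₁) (ty y₁) (ty x₂) (ty y₂) + t x₁ x₂ - t y₁ y₂)
    (ht : ∀ x y, t x y ≠ 0 → ty x = ty y)
    (hD : ∀ a b c e, D a b c e ≠ 0 → adj a b → adj c e → adj a e ∧ adj c b) (j : ℕ)
    (hP : PT J ty adj L G k j) : PT J ty adj L G k (j + 1) := by
  intro W W' h hW hW' hch
  have hl : W.length = W'.length := by
    have := congrArg List.length h
    simpa using this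
  rw [MT_succ d hJ ht j hP W hW hch, MT_succ d hJ ht j hP W' hW' (h ▸ hch), hl]
  refine Finset.sum_congr rfl fun m hm => Finset.sum_congr rfl fun q hq => ?_
  rw [Finset.mem_range] at hm
  rw [← h]
  by_cases h0 : TT D (ty d) (m + 1) ((W.map ty).rotate q) = 0
  · rw [h0]; simp
  have h2 : (W.rotate q).map ty = (W'.rotate q).map ty := by
    rw [List.map_rotate, List.map_rotate, h]
  congr 1
  · congr 1
    apply lamT_congr
    rw [List.map_take, List.map_take, h2]
  · apply hP
    · rw [List.map_drop, List.map_drop, h2]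
    · exact (List.nodup_rotate.2 hW).sublist (List.drop_sublist _ _)
    · exact (List.nodup_rotate.2 hW').sublist (List.drop_sublist _ _)
    · have hC : Cycle.Chain adj (((W.rotate q).map ty : List T) : Cycle T) := by
        rw [List.map_rotate]
        have : (((W.map ty).rotate q : List T) : Cycle T) = ((W.map ty : List T) : Cycle T) :=
          Cycle.coe_eq_coe.2 (List.IsRotated.symm ⟨q, rfl⟩)
        rw [this]
        exact hch
      have hlen : m + 1 < (W.rotate q).length := by rw [List.length_rotate]; omega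
      obtain ⟨b, B, v, V, hU, hl⟩ := exists_decomp (W.rotate q) (m + 1) (by omega) hlen
      have hl' : (b :: B).length = m + 1 := by simpa using hl
      rw [← List.map_rotate] at h0
      rw [hU] at hC h0 ⊢
      rw [List.map_append, chain_append_iff adj (ty d) _ _ (by simp) (by simp)] at hC
      obtain ⟨-, h5, h3, h4⟩ := hC
      rw [List.drop_left' hl', chain_single_iff adj (ty d) _ (by simp)]
      refine ⟨h5, ?_⟩
      unfold TT at h0
      rw [List.map_append, List.take_left' (by simpa using hl'),
        List.drop_left' (by simpa using hl')] at h0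
      exact (hD _ _ _ _ h0 h4 h3).1

theorem PT_all (d : S)
    (hJ : ∀ x₁ y₁ x₂ y₂, x₁ ≠ x₂ → y₁ ≠ y₂ → adj (ty x₁) (ty y₁) → adj (ty x₂) (ty y₂) →
      J x₁ y₁ x₂ y₂ = D (ty x₁) (ty y₁) (ty x₂) (ty y₂) + t x₁ x₂ - t y₁ y₂)
    (ht : ∀ x y, t x y ≠ 0 → ty x = ty y)
    (hD : ∀ a b c e, D a b c e ≠ 0 → adj a b → adj c e → adj a e ∧ adj c b) (j : ℕ) :
    PT J ty adj L G k j := by
  induction j with
  | zero => exact PT_zero J ty adj L G k
  | succ j ih => exact PT_succ d hJ ht hD j ih

/-- vanishing for words whose type word is a `p`-th power -/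
theorem MT_vanish (d : S)
    (hJ : ∀ x₁ y₁ x₂ y₂, x₁ ≠ x₂ → y₁ ≠ y₂ → adj (ty x₁) (ty y₁) → adj (ty x₂) (ty y₂) →
      J x₁ y₁ x₂ y₂ = D (ty x₁) (ty y₁) (ty x₂) (ty y₂) + t x₁ x₂ - t y₁ y₂)
    (ht : ∀ x y, t x y ≠ 0 → ty x = ty y)
    (hD : ∀ a b c e, D a b c e ≠ 0 → adj a b → adj c e → adj a e ∧ adj c b) (j : ℕ)
    (p n : ℕ) [CharP R p] (W : List S) (hnd : W.Nodup)
    (hch : Cycle.Chain adj ((W.map ty : List T) : Cycle T)) (hlW : W.length = n * p)
    (hper : (W.map ty).rotate n = W.map ty) :
    MT J ty L G k (j + 1) W = 0 := by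
  have hP := PT_all (L := L) (G := G) (k := k) d hJ ht hD j
  rw [MT_succ d hJ ht j hP W hnd hch]
  refine Finset.sum_eq_zero fun m hm => ?_
  rw [Finset.mem_range] at hm
  set f : ℕ → R := fun q => ((TT D (ty d) (m + 1) ((W.map ty).rotate q) : ℤ) : R) *
          lamT ty L ((W.rotate q).take (m + 1)) *
          MT J ty L G k j ((W.rotate q).drop (m + 1)) with hf
  have hfper : ∀ q, f (q + n) = f q := by
    intro q
    simp only [hf]
    have e1 : (W.map ty).rotate (q + n) = (W.map ty).rotate q := by
      rw [add_comm, ← List.rotate_rotate, hper]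
    rw [e1]
    by_cases h0 : TT D (ty d) (m + 1) ((W.map ty).rotate q) = 0
    · rw [h0]; simp
    have h2 : (W.rotate (q + n)).map ty = (W.rotate q).map ty := by
      rw [List.map_rotate, List.map_rotate, e1]
    congr 1
    · congr 1
      apply lamT_congr
      rw [List.map_take, List.map_take, h2]
    · symm
      apply hP
      · rw [List.map_drop, List.map_drop, h2]
      · exact (List.nodup_rotate.2 hnd).sublist (List.drop_sublist _ _)
      · exact (List.nodup_rotate.2 hnd).sublist (List.drop_sublist _ _)
      · have hC : Cycle.Chain adj (((W.rotate q).map ty : List T) : Cycle T) := by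
          rw [List.map_rotate]
          have : (((W.map ty).rotate q : List T) : Cycle T) = ((W.map ty : List T) : Cycle T) :=
            Cycle.coe_eq_coe.2 (List.IsRotated.symm ⟨q, rfl⟩)
          rw [this]
          exact hch
        have hlen : m + 1 < (W.rotate q).length := by rw [List.length_rotate]; omega
        obtain ⟨b, B, v, V, hU, hl⟩ := exists_decomp (W.rotate q) (m + 1) (by omega) hlen
        have hl' : (b :: B).length = m + 1 := by simpa using hl
        rw [← List.map_rotate] at h0
        rw [hU] at hC h0 ⊢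
        rw [List.map_append, chain_append_iff adj (ty d) _ _ (by simp) (by simp)] at hC
        obtain ⟨-, h5, h3, h4⟩ := hC
        rw [List.drop_left' hl', chain_single_iff adj (ty d) _ (by simp)]
        refine ⟨h5, ?_⟩
        unfold TT at h0
        rw [List.map_append, List.take_left' (by simpa using hl'),
          List.drop_left' (by simpa using hl')] at h0
        exact (hD _ _ _ _ h0 h4 h3).1
  rw [hlW]
  have hsum : ∀ c : ℕ, ∑ q ∈ Finset.range (n * c), f q = c * ∑ q ∈ Finset.range n, f q := by
    intro c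
    induction c with
    | zero => simp
    | succ c ih =>
      rw [Nat.mul_succ, Finset.sum_range_add, ih]
      have : ∀ q ∈ Finset.range n, f (n * c + q) = f q := by
        intro q _
        clear ih
        induction c with
        | zero => simp
        | succ c ih => rw [Nat.mul_succ, show n * c + n + q = (n * c + q) + n by ring, hfper, ih]
      rw [Finset.sum_congr rfl this]
      push_cast
      ring
  rw [hsum p, CharP.cast_eq_zero, zero_mul]

end general

end Pool.Agent.H29.Cut
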