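import Pool.Agent.H29.Cut.Spiral2

/-!
# Marked cuts of the spiral (MP_86dbc7_gt, packet Q1a)
-/

open Pool.Agent.Helper21.Cut

namespace Pool.Agent.H29.Cut

section ports

variable {P : Type*} [LinearOrder P]

theorem two_side (s t x : P) (h1 : s ≠ t) (h2 : s ≠ x) (h3 : t ≠ x) :
    2 * side s t x = (if s < t then 2 else 0) + om t x - om s x := by
  unfold side om
  rcases lt_or_gt_of_ne h1 with h1 | h1 <;> rcases lt_or_gt_of_ne h2 with h2 | h2 <;>
    rcases lt_or_gt_of_ne h3 with h3 | h3 <;>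
    simp [h1, h2, h3, not_lt_of_gt h1, not_lt_of_gt h2, not_lt_of_gt h3]
  · exact absurd (h3.trans h2) (not_lt_of_gt h1)
  · exact absurd (h2.trans h3) (not_lt_of_gt h1)

theorem two_lk (s t s' t' : P) (h1 : s ≠ t) (h2 : s ≠ s') (h3 : s ≠ t') (h4 : t ≠ s')
    (h5 : t ≠ t') : 2 * lk s t s' t' = om t t' - om s t' - om t s' + om s s' := by
  unfold lk
  rw [mul_sub, two_side s t t' h1 h3 h5, two_side s t s' h1 h2 h4]
  ring

theorem om_lex (k₁ k₂ : ℝ) (a b : ℤ) :
    om (toLex (k₁, a) : ℝ ×ₗ ℤ) (toLex (k₂, b)) =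
      if k₁ < k₂ then 1 else if k₂ < k₁ then -1 else om a b := by
  unfold om
  simp only [Prod.Lex.toLex_lt_toLex]
  rcases lt_trichotomy k₁ k₂ with h | h | h
  · simp [h]
  · simp [h]
  · simp [h, not_lt_of_gt h, h.ne, h.ne']

end ports

section gen

variable {V X : Type*} {n : ℕ}

/-- order of the passes of two letters of equal types -/
def tt (x y : Fin n × ℕ) : ℤ := if x.1 = y.1 ∧ y.2 < x.2 then 1 else 0

theorem om_y (p : ℕ) (hp : 2 ≤ p) (x y : Fin n × ℕ) (hx : x.2 < p) (hy : y.2 < p) (hxy : x ≠ y) :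
    om ((p : ℤ) * (x.1 : ℕ) + x.2 + 1) ((p : ℤ) * (y.1 : ℕ) + y.2 + 1) =
      om ((p : ℤ) * (x.1 : ℕ) + (0 : ℕ) + 1) ((p : ℤ) * (y.1 : ℕ) + (1 : ℕ) + 1) - 2 * tt x y := by
  obtain ⟨i, a⟩ := x
  obtain ⟨j, b⟩ := y
  simp only at hx hy ⊢
  rcases lt_trichotomy i j with h | h | h
  · have h1 : (p : ℤ) * (i : ℕ) + p ≤ p * (j : ℕ) := by
      have : (i : ℕ) + 1 ≤ j := h
      have h2 : (p : ℤ) * ((i : ℕ) + 1) ≤ p * (j : ℕ) := by
        apply mul_le_mul_of_nonneg_left _ (by positivity)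
        exact_mod_cast this
      linarith
    have h3 : tt ((i, a) : Fin n × ℕ) (j, b) = 0 := by
      unfold tt; simp [h.ne]
    rw [h3]
    unfold om
    rw [if_pos (by omega), if_pos (by omega)]
    rfl
  · subst h
    have hab : a ≠ b := fun h => hxy (by rw [h])
    unfold om tt
    simp only [true_and]
    split_ifs <;> omega
  · have h1 : (p : ℤ) * (j : ℕ) + p ≤ p * (i : ℕ) := by
      have : (j : ℕ) + 1 ≤ i := h
      have h2 : (p : ℤ) * ((j : ℕ) + 1) ≤ p * (i : ℕ) := by
        apply mul_le_mul_of_nonneg_left _ (by positivity)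
        exact_mod_cast this
      linarith
    have h3 : tt ((i, a) : Fin n × ℕ) (j, b) = 0 := by
      unfold tt; simp [h.ne']
    rw [h3]
    unfold om
    rw [if_neg (by omega), if_pos (by omega), if_neg (by omega), if_pos (by omega)]
    rfl

theorem om_neg (a b : ℤ) : om (-a) (-b) = - om a b := by
  unfold om
  split_ifs <;> omega

theorem y_inj (p : ℕ) (x y : Fin n × ℕ) (hx : x.2 < p) (hy : y.2 < p)
    (h : (p : ℤ) * (x.1 : ℕ) + x.2 + 1 = (p : ℤ) * (y.1 : ℕ) + y.2 + 1) : x = y := by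
  obtain ⟨i, a⟩ := x
  obtain ⟨j, b⟩ := y
  simp only at hx hy h ⊢
  have h1 : p * (i : ℕ) + a = p * (j : ℕ) + b := by exact_mod_cast (by linarith)
  have hp : 0 < p := by omega
  have h2 := congrArg (· / p) h1
  have h3 := congrArg (· % p) h1
  simp only [Nat.mul_add_div hp, Nat.mul_add_mod, Nat.div_eq_of_lt hx, Nat.div_eq_of_lt hy,
    Nat.mod_eq_of_lt hx, Nat.mod_eq_of_lt hy] at h2 h3
  have h4 : i = j := Fin.ext (by simpa using h2)
  rw [h3, h4]

variable (key : V → V → ℝ) (g : Fin n → Letter V X) (p : ℕ)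

theorem two_Jg (x₁ y₁ x₂ y₂ : Fin n × ℕ) (hx₁ : x₁.2 < p) (hy₁ : y₁.2 < p) (hx₂ : x₂.2 < p)
    (hy₂ : y₂.2 < p) (hx : x₁ ≠ x₂) (hy : y₁ ≠ y₂)
    (h1 : (g x₁.1).v = (g y₁.1).u) (h2 : (g x₁.1).v = (g x₂.1).v) (h3 : (g x₁.1).v = (g y₂.1).u) :
    2 * Jg key g p x₁ y₁ x₂ y₂ =
      om ((gl g p y₁).pout key) ((gl g p y₂).pout key)
      - om ((gl g p x₁).pin key) ((gl g p y₂).pout key)
      - om ((gl g p y₁).pout key) ((gl g p x₂).pin key)
      + om ((gl g p x₁).pin key) ((gl g p x₂).pin key) := by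
  unfold Jg Jl
  rw [if_pos ⟨h1, h2, h3⟩]
  have hpos : ∀ x : Fin n × ℕ, 0 < (gl g p x).y := by
    intro x
    have : (gl g p x).y = (p : ℤ) * (x.1 : ℕ) + x.2 + 1 := rfl
    rw [this]; positivity
  have hio : ∀ x y : Fin n × ℕ, (gl g p x).pin key ≠ (gl g p y).pout key := by
    intro x y h
    unfold Letter.pin Letter.pout at h
    have h5 := congrArg (fun z => (ofLex z).2) h
    simp only [ofLex_toLex] at h5
    have := hpos x
    have := hpos y
    omega
  apply two_lk
  · exact hio _ _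
  · intro h
    unfold Letter.pin at h
    have h5 := congrArg (fun z => (ofLex z).2) h
    simp only [ofLex_toLex] at h5
    exact hx (y_inj p _ _ hx₁ hx₂ (neg_injective h5))
  · exact hio _ _
  · exact (hio _ _).symm
  · intro h
    unfold Letter.pout at h
    have h5 := congrArg (fun z => (ofLex z).2) h
    simp only [ofLex_toLex] at h5
    exact hy (y_inj p _ _ hy₁ hy₂ h5)

theorem om_out (hp : 2 ≤ p) (y₁ y₂ : Fin n × ℕ) (hy₁ : y₁.2 < p) (hy₂ : y₂.2 < p) (hy : y₁ ≠ y₂) :
    om ((gl g p y₁).pout key) ((gl g p y₂).pout key) =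
      om ((gl g p (y₁.1, 0)).pout key) ((gl g p (y₂.1, 1)).pout key) - 2 * tt y₁ y₂ := by
  have e : ∀ x : Fin n × ℕ, (gl g p x).pout key =
      toLex (key (g x.1).u (g x.1).v, (p : ℤ) * (x.1 : ℕ) + x.2 + 1) := fun x => rfl
  rw [e, e, e, e, om_lex, om_lex]
  simp only
  split_ifs with h1 h2
  · have : tt y₁ y₂ = 0 := by
      unfold tt
      rw [if_neg]
      rintro ⟨h, -⟩
      rw [h] at h1
      exact lt_irrefl _ h1
    rw [this]; rfl
  · have : tt y₁ y₂ = 0 := by
      unfold tt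
      rw [if_neg]
      rintro ⟨h, -⟩
      rw [h] at h2
      exact lt_irrefl _ h2
    rw [this]; rfl
  · exact om_y p hp y₁ y₂ hy₁ hy₂ hy

theorem om_in (hp : 2 ≤ p) (y₁ y₂ : Fin n × ℕ) (hy₁ : y₁.2 < p) (hy₂ : y₂.2 < p) (hy : y₁ ≠ y₂) :
    om ((gl g p y₁).pin key) ((gl g p y₂).pin key) =
      om ((gl g p (y₁.1, 0)).pin key) ((gl g p (y₂.1, 1)).pin key) + 2 * tt y₁ y₂ := by
  have e : ∀ x : Fin n × ℕ, (gl g p x).pin key =
      toLex (key (g x.1).v (g x.1).u, -((p : ℤ) * (x.1 : ℕ) + x.2 + 1)) := fun x => rfl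
  rw [e, e, e, e, om_lex, om_lex]
  simp only
  split_ifs with h1 h2
  · have : tt y₁ y₂ = 0 := by
      unfold tt
      rw [if_neg]
      rintro ⟨h, -⟩
      rw [h] at h1
      exact lt_irrefl _ h1
    rw [this]; rfl
  · have : tt y₁ y₂ = 0 := by
      unfold tt
      rw [if_neg]
      rintro ⟨h, -⟩
      rw [h] at h2
      exact lt_irrefl _ h2
    rw [this]; rfl
  · rw [om_neg, om_neg, om_y p hp y₁ y₂ hy₁ hy₂ hy]
    ring

theorem om_in_out (x y : Fin n × ℕ) :
    om ((gl g p x).pin key) ((gl g p y).pout key) =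
      om ((gl g p (x.1, 0)).pin key) ((gl g p (y.1, 1)).pout key) := by
  have e : ∀ x : Fin n × ℕ, (gl g p x).pin key =
      toLex (key (g x.1).v (g x.1).u, -((p : ℤ) * (x.1 : ℕ) + x.2 + 1)) := fun x => rfl
  have e' : ∀ x : Fin n × ℕ, (gl g p x).pout key =
      toLex (key (g x.1).u (g x.1).v, (p : ℤ) * (x.1 : ℕ) + x.2 + 1) := fun x => rfl
  rw [e, e, e', e', om_lex, om_lex]
  simp only
  have h1 : ∀ i j a b : ℕ, om (-((p : ℤ) * i + a + 1)) ((p : ℤ) * j + b + 1) = 1 := by
    intro i j a b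
    unfold om
    rw [if_pos]
    have : 0 < (p : ℤ) * i + a + 1 := by positivity
    have : 0 < (p : ℤ) * j + b + 1 := by positivity
    linarith
  rw [h1, h1]

theorem om_out_in (x y : Fin n × ℕ) :
    om ((gl g p x).pout key) ((gl g p y).pin key) =
      om ((gl g p (x.1, 0)).pout key) ((gl g p (y.1, 1)).pin key) := by
  have e : ∀ x : Fin n × ℕ, (gl g p x).pin key =
      toLex (key (g x.1).v (g x.1).u, -((p : ℤ) * (x.1 : ℕ) + x.2 + 1)) := fun x => rfl
  have e' : ∀ x : Fin n × ℕ, (gl g p x).pout key =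
      toLex (key (g x.1).u (g x.1).v, (p : ℤ) * (x.1 : ℕ) + x.2 + 1) := fun x => rfl
  rw [e, e, e', e', om_lex, om_lex]
  simp only
  have h1 : ∀ i j a b : ℕ, om ((p : ℤ) * j + b + 1) (-((p : ℤ) * i + a + 1)) = -1 := by
    intro i j a b
    unfold om
    have : 0 < (p : ℤ) * i + a + 1 := by positivity
    have : 0 < (p : ℤ) * j + b + 1 := by positivity
    rw [if_neg (by linarith), if_pos (by linarith)]
  rw [h1, h1]

theorem Jg_types (hp : 2 ≤ p) (x₁ y₁ x₂ y₂ : Fin n × ℕ) (hx₁ : x₁.2 < p) (hy₁ : y₁.2 < p)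
    (hx₂ : x₂.2 < p) (hy₂ : y₂.2 < p) (hx : x₁ ≠ x₂) (hy : y₁ ≠ y₂)
    (h1 : (g x₁.1).v = (g y₁.1).u) (h2 : (g x₂.1).v = (g y₂.1).u) :
    Jg key g p x₁ y₁ x₂ y₂ =
      Jg key g p (x₁.1, 0) (y₁.1, 0) (x₂.1, 1) (y₂.1, 1) + tt x₁ x₂ - tt y₁ y₂ := by
  by_cases h3 : (g x₁.1).v = (g x₂.1).v
  · have e1 := two_Jg key g p x₁ y₁ x₂ y₂ hx₁ hy₁ hx₂ hy₂ hx hy h1 h3 (h3.trans h2)
    have e2 := two_Jg key g p (x₁.1, 0) (y₁.1, 0) (x₂.1, 1) (y₂.1, 1) (by simp; omega)
      (by simp; omega) (by simp; omega) (by simp; omega) (by simp) (by simp) h1 h3 (h3.trans h2)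
    rw [om_out key g p hp y₁ y₂ hy₁ hy₂ hy, om_in key g p hp x₁ x₂ hx₁ hx₂ hx,
      om_in_out key g p x₁ y₂, om_out_in key g p y₁ x₂] at e1
    linarith
  · have e1 : Jg key g p x₁ y₁ x₂ y₂ = 0 := by
      unfold Jg Jl
      rw [if_neg]
      rintro ⟨-, h, -⟩
      exact h3 h
    have e2 : Jg key g p (x₁.1, 0) (y₁.1, 0) (x₂.1, 1) (y₂.1, 1) = 0 := by
      unfold Jg Jl
      rw [if_neg]
      rintro ⟨-, h, -⟩
      exact h3 h
    have e3 : tt x₁ x₂ = 0 := by
      unfold tt
      rw [if_neg]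
      rintro ⟨h, -⟩
      exact h3 (by rw [h])
    have e4 : tt y₁ y₂ = 0 := by
      unfold tt
      rw [if_neg]
      rintro ⟨h, -⟩
      exact h3 (by rw [h1, h2, h])
    rw [e1, e2, e3, e4]
    rfl

end gen

theorem nuF_map {S S' R : Type*} [CommRing R] (f : S → S') (J : S' → S' → S' → S' → ℤ)
    (lam F : List S' → R) (j : ℕ) (b : S) (W : List S) :
    nuF J lam F j (f b) (W.map f) =
      nuF (fun x y z w => J (f x) (f y) (f z) (f w)) (fun B => lam (B.map f))
        (fun B => F (B.map f)) j b W := by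
  induction j generalizing b W with
  | zero => simp [nuF]
  | succ j ih =>
    rw [nuF, nuF, sp_eq_sum, sp_eq_sum, List.length_map]
    refine Finset.sum_congr rfl fun a ha => ?_
    rw [spn_eq_sum, spn_eq_sum, List.length_drop, List.length_drop, List.length_map]
    refine Finset.sum_congr rfl fun m hm => ?_
    rw [← List.map_take, ← List.map_drop, ← List.map_take, ← List.map_drop, ← List.map_append, ih,
      getLastD_map', headD_map', getLastD_map', headD_map']

section spiral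

variable {n : ℕ}

/-- letters of the spiral -/
def ltr' (hn : 0 < n) (p : ℕ) (hp : 0 < p) (q : ℕ) : Fin n × Fin p :=
  (⟨q % n, Nat.mod_lt _ hn⟩, ⟨(q / n) % p, Nat.mod_lt _ hp⟩)

/-- the inclusion of the letters -/
def emb (p : ℕ) (x : Fin n × Fin p) : Fin n × ℕ := (x.1, x.2)

theorem emb_ltr' (hn : 0 < n) (p : ℕ) (hp : 0 < p) (q : ℕ) :
    emb p (ltr' hn p hp q) = ltr hn p q := rfl

theorem ltr'_add (hn : 0 < n) (p : ℕ) (hp : 0 < p) (q : ℕ) :
    ltr' hn p hp (q + n * p) = ltr' hn p hp q := by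
  unfold ltr'
  ext1
  · simp only [Nat.add_mul_mod_self_left]
  · simp only [Nat.add_mul_div_left _ _ hn, Nat.add_mod_right]

theorem ltr'_mod (hn : 0 < n) (p : ℕ) (hp : 0 < p) (q : ℕ) :
    ltr' hn p hp (q % (n * p)) = ltr' hn p hp q := by
  conv_rhs => rw [← Nat.mod_add_div q (n * p)]
  induction q / (n * p) with
  | zero => simp
  | succ c ih => rw [Nat.mul_succ, ← Nat.add_assoc, ltr'_add, ← ih]

theorem sum_range_mul (n c : ℕ) {R : Type*} [CommRing R] (f : ℕ → R) :
    ∑ q ∈ Finset.range (n * c), f q =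
      ∑ a ∈ Finset.range c, ∑ i ∈ Finset.range n, f (n * a + i) := by
  induction c with
  | zero => simp
  | succ c ih => rw [Nat.mul_succ, Finset.sum_range_add, ih, Finset.sum_range_succ]

theorem spiral_vanish {R : Type*} [CommRing R] {V X : Type*} (key : V → V → ℝ) (p n : ℕ) (hp : p.Prime)
    [CharP R p] (hn : 0 < n) (g : Fin n → Letter V X) (hne : ∀ i, (g i).u ≠ (g i).v)
    (hg : ∀ i : Fin n, (g i).v = (g ⟨(i + 1) % n, Nat.mod_lt _ hn⟩).u)
    (L G : Cycle (Fin n) → R) (k : Fin n) :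
    ∑ a ∈ Finset.range p, nuF (Jg key g p) (fun B => L ((B.map Prod.fst : List (Fin n)) : Cycle (Fin n)))
      (fun B => G ((B.map Prod.fst : List (Fin n)) : Cycle (Fin n))) (p - 1) (k, a)
      ((List.range (n * p - 1)).map fun q => ltr hn p (k + a * n + 1 + q)) = 0 := by
  have hp0 : 0 < p := hp.pos
  have hp2 : 2 ≤ p := hp.two_le
  have hN : 0 < n * p := Nat.mul_pos hn hp0
  set W : List (Fin n × Fin p) := (List.range (n * p)).map (ltr' hn p hp0) with hW
  have hlW : W.length = n * p := by simp [hW]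
  have hgetW : ∀ (q : ℕ) (h : q < W.length), W[q] = ltr' hn p hp0 q := by
    intro q h
    simp [hW]
  -- the word is nodup
  have hnd : W.Nodup := by
    rw [hW]
    refine List.Nodup.map_on ?_ List.nodup_range
    intro x hx y hy hxy
    rw [List.mem_range] at hx hy
    unfold ltr' at hxy
    have h1 := congrArg (fun z => (z.1 : ℕ)) hxy
    have h2 := congrArg (fun z => (z.2 : ℕ)) hxy
    simp only at h1 h2
    rw [Nat.mod_eq_of_lt (Nat.div_lt_of_lt_mul hx), Nat.mod_eq_of_lt (Nat.div_lt_of_lt_mul hy)] at h2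
    rw [← Nat.mod_add_div x n, ← Nat.mod_add_div y n, h1, h2]
  -- rotations
  have hrot : ∀ q, W.rotate q = ltr' hn p hp0 q ::
      (List.range (n * p - 1)).map (fun i => ltr' hn p hp0 (q + 1 + i)) := by
    intro q
    apply List.ext_getElem
    · simp [hlW]; omega
    · intro i h1 h2
      rw [List.getElem_rotate]
      rw [hgetW]
      have e : (i + q) % W.length = (i + q) % (n * p) := by rw [hlW]
      rw [e, ltr'_mod]
      cases i with
      | zero => simp
      | succ i =>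
        simp only [List.getElem_cons_succ, List.getElem_map, List.getElem_range]
        congr 1
        omega
  have hch : Cycle.Chain (fun i j : Fin n => (g i).v = (g j).u)
      ((W.map Prod.fst : List (Fin n)) : Cycle (Fin n)) := by
    have e1 : W.map Prod.fst = (List.range (n * p)).map
        (fun q => (⟨q % n, Nat.mod_lt _ hn⟩ : Fin n)) := by
      rw [hW, List.map_map]; rfl
    rw [e1, ← Cycle.map_coe, Cycle.chain_map]
    obtain ⟨N, hN'⟩ : ∃ N, n * p = N.succ := ⟨n * p - 1, by omega⟩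
    rw [hN', Cycle.chain_range_succ]
    constructor
    · rw [hg]
      congr 2
      ext
      simp only [Nat.mod_add_mod]
      have : N + 1 = n * p := hN'.symm
      rw [this]
      simp
    · intro m _
      rw [hg]
      congr 2
      ext
      simp only [Nat.mod_add_mod]
  have hper : (W.map Prod.fst).rotate n = W.map Prod.fst := by
    apply List.ext_getElem
    · simp
    · intro i h1 h2
      rw [List.getElem_rotate]
      simp only [List.getElem_map, hgetW, List.length_map, hlW]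
      unfold ltr'
      simp only
      ext
      simp only
      rw [Nat.mod_mul_right_mod, Nat.add_mod_right]
  have key1 := MT_vanish (R := R) (J := fun x y z w => Jg key g p (emb p x) (emb p y) (emb p z) (emb p w))
    (ty := (Prod.fst : Fin n × Fin p → Fin n))
    (adj := fun i j : Fin n => (g i).v = (g j).u)
    (D := fun i j i' j' => Jg key g p (i, 0) (j, 0) (i', 1) (j', 1))
    (t := fun x y => tt (emb p x) (emb p y)) (L := L) (G := G) (k := k)
    (ltr' hn p hp0 0)
    (by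
      intro x₁ y₁ x₂ y₂ hx hy h1 h2
      have hinj : Function.Injective (emb (n := n) p) := by
        rintro ⟨i, a⟩ ⟨j, b⟩ h
        unfold emb at h
        simp only [Prod.mk.injEq] at h
        rw [h.1, Fin.ext h.2]
      exact Jg_types key g p hp2 (emb p x₁) (emb p y₁) (emb p x₂) (emb p y₂) x₁.2.2 y₁.2.2 x₂.2.2
        y₂.2.2 (hinj.ne hx) (hinj.ne hy) h1 h2)
    (by
      intro x y h
      unfold tt at h
      by_contra hne
      exact h (if_neg (fun h' => hne h'.1)))
    (by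
      intro a b c e h h1 h2
      unfold Jg Jl at h
      split_ifs at h with h3
      · exact ⟨h3.2.2, h3.2.1.symm.trans h3.1⟩
      · exact absurd rfl h)
    (p - 2) p n W hnd hch hlW hper
  rw [show p - 2 + 1 = p - 1 by omega] at key1
  unfold MT MM at key1
  rw [hlW, sum_range_mul] at key1
  rw [← key1]
  refine Finset.sum_congr rfl fun a ha => ?_
  rw [Finset.mem_range] at ha
  rw [Finset.sum_eq_single (k : ℕ)]
  · rw [hrot]
    have e1 : ltr' hn p hp0 (n * a + k) = (k, ⟨a, ha⟩) := by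
      unfold ltr'
      ext1
      · ext
        simp only [Nat.mul_add_mod]
        exact Nat.mod_eq_of_lt k.2
      · ext
        simp only [Nat.mul_add_div hn, Nat.div_eq_of_lt k.2, add_zero]
        exact Nat.mod_eq_of_lt ha
    rw [hh, if_pos (by rw [e1]), e1]
    have e2 := nuF_map (emb (n := n) p) (Jg key g p)
      (fun B => L ((B.map Prod.fst : List (Fin n)) : Cycle (Fin n)))
      (fun B => G ((B.map Prod.fst : List (Fin n)) : Cycle (Fin n))) (p - 1) (k, ⟨a, ha⟩)
      ((List.range (n * p - 1)).map (fun i => ltr' hn p hp0 (n * a + k + 1 + i)))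
    have e3 : emb p (k, (⟨a, ha⟩ : Fin p)) = (k, a) := rfl
    rw [e3] at e2
    have e4 : (List.range (n * p - 1)).map (fun q => ltr hn p (k + a * n + 1 + q)) =
        ((List.range (n * p - 1)).map (fun i => ltr' hn p hp0 (n * a + k + 1 + i))).map
          (emb p) := by
      rw [List.map_map]
      refine List.map_congr_left fun q _ => ?_
      rw [Function.comp, emb_ltr']
      congr 1
      ring
    rw [e4, e2]
    unfold lamT
    congr 1
    · funext B
      rw [List.map_map]; rfl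
    · funext B
      rw [List.map_map]; rfl
  · intro i hi hik
    rw [Finset.mem_range] at hi
    rw [hrot, hh, if_neg]
    unfold ltr'
    simp only
    intro h
    have h2 := congrArg Fin.val h
    simp only [Nat.mul_add_mod, Nat.mod_eq_of_lt hi] at h2
    exact hik h2
  · intro h
    exact absurd (Finset.mem_range.2 k.2) h

end spiral

end Pool.Agent.H29.Cut
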